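import Mathlib

/-!
Turing machines on a two-way infinite tape, in the conventions of problem MP_1eaf70_lc:
states `0, ..., n-1` (initial state `0`) plus a halting state, symbols `0, ..., m-1` with blank
`0`, moves left or right only; entering the halting state stops the machine and the transition
into it counts as a step.
-/

set_option autoImplicit false

namespace Pool.Agent.H76.HB

/-- Transition tables of `n`-state `m`-symbol machines: state and scanned symbol give the written
symbol, the move (`true` = right, `false` = left) and the next state (`none` = the halting state). -/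
abbrev Table (n m : ℕ) := Fin n → Fin m → Fin m × Bool × Option (Fin n)

/-- Configurations: current state (`none` = halted), tape content, head position. -/
abbrev Config (n m : ℕ) := Option (Fin n) × (ℤ → Fin m) × ℤ

/-- One step; a halted configuration does not change. -/
def step {n m : ℕ} (δ : Table n m) (c : Config n m) : Config n m :=
  match c.1 with
  | none => c
  | some q => ((δ q (c.2.1 c.2.2)).2.2,
      Function.update c.2.1 c.2.2 (δ q (c.2.1 c.2.2)).1,
      c.2.2 + (if (δ q (c.2.1 c.2.2)).2.1 then (1 : ℤ) else -1))

/-- The initial configuration: state `0`, blank tape, head on cell `0`. -/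
def start (n m : ℕ) : Config (n + 1) (m + 1) := (some 0, fun _ => 0, 0)

/-- The machine halts after exactly `t` steps. -/
def HaltsAt {n m : ℕ} (δ : Table (n + 1) (m + 1)) (t : ℕ) : Prop :=
  ((step δ)^[t] (start n m)).1 = none ∧ ∀ s < t, ((step δ)^[s] (start n m)).1 ≠ none

/-- Number of nonblank cells after `t` steps. -/
noncomputable def nonblank {n m : ℕ} (δ : Table (n + 1) (m + 1)) (t : ℕ) : ℕ :=
  {i : ℤ | ((step δ)^[t] (start n m)).2.1 i ≠ 0}.ncard

/-- Number of cells scanned in the first `t` steps. -/
noncomputable def scanned {n m : ℕ} (δ : Table (n + 1) (m + 1)) (t : ℕ) : ℕ :=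
  {i : ℤ | ∃ s < t, ((step δ)^[s] (start n m)).2.2 = i}.ncard

/-- Number of table entries whose next state is the halting state. -/
def haltEntries {n m : ℕ} (δ : Table n m) : ℕ :=
  (Finset.univ.filter (fun p : Fin n × Fin m => (δ p.1 p.2).2.2 = none)).card

end Pool.Agent.H76.HB
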