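import Pool.Agent.H76.HB.Defs

/-!
One more symbol for machines with a state `z` that never scans an unvisited cell: start in `z` on
the cell `c = ±1`, write the inner blank there, move to cell `0` into the old initial state and
simulate with inner blanks.
-/

set_option autoImplicit false

namespace Pool.Agent.H76.HB

section relabel

variable {n m : ℕ}

/-- relabelling the states -/
def relab (σ : Equiv.Perm (Fin n)) (δ : Table n m) : Table n m := fun s a =>
  ((δ (σ s) a).1, (δ (σ s) a).2.1, (δ (σ s) a).2.2.map σ.symm)

/-- relabelled configuration -/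
def relabC (σ : Equiv.Perm (Fin n)) (c : Config n m) : Config n m := (c.1.map σ.symm, c.2)

lemma step_relab (σ : Equiv.Perm (Fin n)) (δ : Table n m) (c : Config n m) :
    step (relab σ δ) (relabC σ c) = relabC σ (step δ c) := by
  obtain ⟨o, τ, p⟩ := c
  cases o with
  | none => rfl
  | some q => simp [step, relab, relabC]

lemma iter_relab (σ : Equiv.Perm (Fin n)) (δ : Table n m) (c : Config n m) (t : ℕ) :
    (step (relab σ δ))^[t] (relabC σ c) = relabC σ ((step δ)^[t] c) := by
  induction t with
  | zero => rfl
  | succ t ih => rw [Function.iterate_succ_apply', Function.iterate_succ_apply', ih, step_relab]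

lemma haltEntries_relab (σ : Equiv.Perm (Fin n)) (δ : Table n m) :
    haltEntries (relab σ δ) = haltEntries δ := by
  unfold haltEntries
  apply Finset.card_bij (fun p _ => (σ p.1, p.2))
  · intro p hp
    simp only [Finset.mem_filter, Finset.mem_univ, true_and, relab, Option.map_eq_none_iff] at hp ⊢
    exact hp
  · intro p _ p' _ h
    simp only [Prod.mk.injEq, EmbeddingLike.apply_eq_iff_eq] at h
    exact Prod.ext h.1 h.2
  · intro p hp
    refine ⟨(σ.symm p.1, p.2), ?_, by simp⟩
    simp only [Finset.mem_filter, Finset.mem_univ, true_and, relab, Option.map_eq_none_iff,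
      Equiv.apply_symm_apply] at hp ⊢
    exact hp

end relabel

section

variable {n m : ℕ}

/-- encoding of the old symbols, the blank becomes the new symbol -/
def enc1 (a : Fin (m + 1)) : Fin (m + 2) :=
  if a.val = 0 then ⟨m + 1, by omega⟩ else ⟨a.val, by omega⟩

lemma enc1_ne_zero (a : Fin (m + 1)) : enc1 a ≠ 0 := by
  unfold enc1
  split_ifs with h
  · intro h'
    have := congrArg Fin.val h'
    simp at this
  · intro h'
    have := congrArg Fin.val h'
    simp at this
    exact h (by simpa using this)

lemma enc1_inj : Function.Injective (enc1 (m := m)) := by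
  intro a b h
  have h1 := congrArg Fin.val h
  have ha := a.isLt
  have hb := b.isLt
  apply Fin.ext
  unfold enc1 at h1
  split_ifs at h1 with h2 h3 h3
  · omega
  · simp at h1; omega
  · simp at h1; omega
  · simpa using h1

/-- the entry with its next state made non-halting -/
def dummy (e : Fin (m + 2) × Bool × Option (Fin (n + 1))) :
    Fin (m + 2) × Bool × Option (Fin (n + 1)) :=
  (e.1, e.2.1, some (e.2.2.getD 0))

/-- the entry with encoded written symbol -/
def encE (e : Fin (m + 1) × Bool × Option (Fin (n + 1))) :
    Fin (m + 2) × Bool × Option (Fin (n + 1)) :=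
  (enc1 e.1, e.2.1, e.2.2)

/-- The machine that starts in state `z`. The flag `b` tells in which of the two columns that
stand for the blank the halting entries are kept; `d` is the first move. -/
def idle (δ : Table (n + 1) (m + 1)) (z : Fin (n + 1)) (b d : Bool) : Table (n + 1) (m + 2) :=
  fun s a =>
    if a.val = 0 then
      (if s = z then (⟨m + 1, by omega⟩, d, some 0)
       else if b then encE (δ s 0) else dummy (encE (δ s 0)))
    else if h : a.val ≤ m then encE (δ s ⟨a.val, by omega⟩)
    else if b ∧ s ≠ z then dummy (encE (δ s 0)) else encE (δ s 0)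

lemma idle_start (δ : Table (n + 1) (m + 1)) (z : Fin (n + 1)) (b d : Bool) :
    idle δ z b d z 0 = (⟨m + 1, by omega⟩, d, some 0) := by
  simp [idle]

lemma idle_fresh (δ : Table (n + 1) (m + 1)) (z : Fin (n + 1)) (b d : Bool) (s : Fin (n + 1))
    (hs : s ≠ z) :
    idle δ z b d s 0 = if b then encE (δ s 0) else dummy (encE (δ s 0)) := by
  simp [idle, hs]

lemma idle_enc_zero (δ : Table (n + 1) (m + 1)) (z : Fin (n + 1)) (b d : Bool) (s : Fin (n + 1)) :
    idle δ z b d s (enc1 0) =
      if b ∧ s ≠ z then dummy (encE (δ s 0)) else encE (δ s 0) := by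
  have : enc1 (0 : Fin (m + 1)) = ⟨m + 1, by omega⟩ := by simp [enc1]
  rw [this]
  simp [idle]

lemma idle_enc_pos (δ : Table (n + 1) (m + 1)) (z : Fin (n + 1)) (b d : Bool) (s : Fin (n + 1))
    (a : Fin (m + 1)) (ha : a ≠ 0) :
    idle δ z b d s (enc1 a) = encE (δ s a) := by
  have ha' : a.val ≠ 0 := fun h => ha (Fin.ext (by simpa using h))
  have h1 : enc1 a = ⟨a.val, by omega⟩ := by simp [enc1, ha']
  rw [h1]
  have h2 : a.val ≤ m := by omega
  simp only [idle]
  rw [if_neg ha', dif_pos h2]

lemma dummy_of_ne (e : Fin (m + 2) × Bool × Option (Fin (n + 1))) (h : e.2.2 ≠ none) :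
    dummy e = e := by
  obtain ⟨w, d, o⟩ := e
  cases o with
  | none => exact absurd rfl h
  | some q => rfl

lemma haltEntries_idle (δ : Table (n + 1) (m + 1)) (z : Fin (n + 1)) (b d : Bool) :
    haltEntries (idle δ z b d) = haltEntries δ := by
  unfold haltEntries
  symm
  apply Finset.card_bij
    (fun p _ => (p.1, if p.2 = 0 ∧ b ∧ p.1 ≠ z then (0 : Fin (m + 2)) else enc1 p.2))
  · rintro ⟨s, a⟩ hp
    simp only [Finset.mem_filter, Finset.mem_univ, true_and] at hp ⊢
    by_cases ha : a = 0
    · subst ha
      by_cases hb : b ∧ s ≠ z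
      · simp only [hb, ne_eq, not_false_eq_true, and_self, if_true]
        rw [idle_fresh _ _ _ _ _ hb.2]
        exact hp
      · have : ¬ ((0 : Fin (m + 1)) = 0 ∧ b = true ∧ s ≠ z) := fun h => hb h.2
        rw [if_neg this, idle_enc_zero, if_neg hb]
        exact hp
    · have : ¬ (a = 0 ∧ b = true ∧ s ≠ z) := fun h => ha h.1
      rw [if_neg this, idle_enc_pos _ _ _ _ _ _ ha]
      exact hp
  · rintro ⟨s, a⟩ _ ⟨s', a'⟩ _ h
    simp only [Prod.mk.injEq] at h
    obtain ⟨h1, h2⟩ := h
    subst h1
    refine Prod.ext rfl ?_
    split_ifs at h2 with h3 h4 h4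
    · exact h3.1.trans h4.1.symm
    · exact absurd h2.symm (enc1_ne_zero _)
    · exact absurd h2 (enc1_ne_zero _)
    · exact enc1_inj h2
  · rintro ⟨s, a⟩ hp
    simp only [Finset.mem_filter, Finset.mem_univ, true_and] at hp
    by_cases ha : a.val = 0
    · have ha' : a = 0 := Fin.ext (by simpa using ha)
      subst ha'
      by_cases hs : s = z
      · subst hs
        rw [idle_start] at hp
        simp at hp
      · rw [idle_fresh _ _ _ _ _ hs] at hp
        by_cases hb : b = true
        · rw [if_pos hb] at hp
          refine ⟨(s, 0), ?_, ?_⟩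
          · simp only [Finset.mem_filter, Finset.mem_univ, true_and]
            exact hp
          · simp [hb, hs]
        · rw [if_neg hb] at hp
          simp [dummy] at hp
    · by_cases h1 : a.val ≤ m
      · have h2 : enc1 (⟨a.val, by omega⟩ : Fin (m + 1)) = a := by simp [enc1, ha]
        have h3 : (⟨a.val, by omega⟩ : Fin (m + 1)) ≠ 0 := by
          intro h
          have := congrArg Fin.val h
          simp at this
          exact ha (by simpa using this)
        rw [← h2, idle_enc_pos _ _ _ _ _ _ h3] at hp
        refine ⟨(s, ⟨a.val, by omega⟩), ?_, ?_⟩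
        · simp only [Finset.mem_filter, Finset.mem_univ, true_and]
          exact hp
        · simp only [h3, false_and, if_false, h2]
      · have h2 : enc1 (0 : Fin (m + 1)) = a := by
          apply Fin.ext
          simp [enc1]
          omega
        rw [← h2, idle_enc_zero] at hp
        split_ifs at hp with h3
        · simp [dummy] at hp
        · refine ⟨(s, 0), ?_, ?_⟩
          · simp only [Finset.mem_filter, Finset.mem_univ, true_and]
            exact hp
          · have : ¬ (True ∧ b = true ∧ s ≠ z) := fun h => h3 h.2
            simp only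
            rw [if_neg this, h2]

/-- position at time `s` -/
def pos (δ : Table (n + 1) (m + 1)) (s : ℕ) : ℤ := ((step δ)^[s] (start n m)).2.2

/-- cells visited before time `s` -/
def Vis (δ : Table (n + 1) (m + 1)) (s : ℕ) (i : ℤ) : Prop := ∃ u < s, pos δ u = i

lemma vis_succ (δ : Table (n + 1) (m + 1)) (s : ℕ) (i : ℤ) :
    Vis δ (s + 1) i ↔ Vis δ s i ∨ i = pos δ s := by
  constructor
  · rintro ⟨u, hu, rfl⟩
    rcases Nat.lt_succ_iff_lt_or_eq.mp hu with h | h
    · exact Or.inl ⟨u, h, rfl⟩
    · subst h; exact Or.inr rfl
  · rintro (⟨u, hu, rfl⟩ | rfl)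
    · exact ⟨u, by omega, rfl⟩
    · exact ⟨s, by omega, rfl⟩

lemma step_some1 {n m : ℕ} (δ : Table n m) (q : Fin n) (τ : ℤ → Fin m) (p : ℤ) :
    step δ (some q, τ, p) = ((δ q (τ p)).2.2, Function.update τ p (δ q (τ p)).1,
      p + (if (δ q (τ p)).2.1 then (1 : ℤ) else -1)) := rfl

/-- unvisited cells are blank -/
lemma blank_of_not_vis (δ : Table (n + 1) (m + 1)) (s : ℕ) (i : ℤ) (h : ¬ Vis δ s i) :
    ((step δ)^[s] (start n m)).2.1 i = 0 := by
  induction s with
  | zero => rfl
  | succ s ih =>
    rw [vis_succ, not_or] at h
    have ih' := ih h.1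
    rw [Function.iterate_succ_apply']
    have hp : i ≠ ((step δ)^[s] (start n m)).2.2 := h.2
    generalize (step δ)^[s] (start n m) = c at ih' hp
    obtain ⟨o, τ, p⟩ := c
    cases o with
    | none => exact ih'
    | some q =>
      rw [step_some1]
      simp only
      rw [Function.update_of_ne hp]
      exact ih'

open Classical in
/-- the simulation -/
lemma idle_run (δ : Table (n + 1) (m + 1)) (t : ℕ) (z : Fin (n + 1)) (b d : Bool)
    (ht : ∀ s < t, ((step δ)^[s] (start n m)).1 ≠ none)
    (hz : ∀ s < t, ((step δ)^[s] (start n m)).1 = some z → Vis δ s (pos δ s))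
    (hb : ∀ s, t = s + 1 →
      (b = true ↔ (¬ Vis δ s (pos δ s) ∧ pos δ s + (if d then (1 : ℤ) else -1) ≠ 0)))
    (s : ℕ) (hs : s ≤ t) :
    (step (idle δ z b d))^[s + 1] (some z, fun _ => 0, 0) =
      (((step δ)^[s] (start n m)).1,
        fun j => if Vis δ s (j - (if d then (1 : ℤ) else -1)) ∨ j = 0 then
          enc1 (((step δ)^[s] (start n m)).2.1 (j - (if d then (1 : ℤ) else -1))) else 0,
        pos δ s + (if d then (1 : ℤ) else -1)) := by
  induction s with
  | zero =>
    rw [zero_add, Function.iterate_one, step_some1, idle_start]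
    refine Prod.ext rfl (Prod.ext ?_ ?_)
    · funext j
      simp only [Function.update_apply]
      have hv : ∀ i, ¬ Vis δ 0 i := by
        rintro i ⟨u, hu, -⟩
        omega
      by_cases hj : j = 0
      · subst hj
        simp [start, enc1]
      · simp [hj, hv]
    · simp [pos, start]
  | succ s ih =>
    have ih' := ih (by omega)
    rw [Function.iterate_succ_apply', ih']
    have hs1 := ht s (by omega)
    have hz1 := hz s (by omega)
    have hbl := blank_of_not_vis δ s
    have hvs := vis_succ δ s
    -- the next configuration
    have hnext : (step δ)^[s + 1] (start n m) = step δ ((step δ)^[s] (start n m)) := by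
      rw [Function.iterate_succ_apply']
    have hpos : pos δ s = ((step δ)^[s] (start n m)).2.2 := rfl
    have hpos1 : pos δ (s + 1) = ((step δ)^[s + 1] (start n m)).2.2 := rfl
    have hnn : s + 1 < t → ((step δ)^[s + 1] (start n m)).1 ≠ none := fun h => ht (s + 1) h
    rw [hnext] at hpos1 hnn ⊢
    rw [hpos1]
    generalize hc : (step δ)^[s] (start n m) = c at *
    obtain ⟨o, τ, p⟩ := c
    simp only at hpos
    cases o with
    | none => exact absurd rfl hs1
    | some q =>
      have hb' : s + 1 = t → (b = true ↔
          (¬ Vis δ s p ∧ p + (if d then (1 : ℤ) else -1) ≠ 0)) := by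
        intro h
        have := hb s h.symm
        rwa [hpos] at this
      have hvs' : ∀ i, Vis δ (s + 1) i ↔ Vis δ s i ∨ i = p := by
        intro i
        rw [hvs i, hpos]
      have hz1' : q = z → Vis δ s p := by
        intro h
        have := hz1 (by rw [h])
        rwa [hpos] at this
      rw [hpos]
      rw [step_some1, step_some1]
      rw [step_some1] at hnn
      simp only at *
      set e : ℤ := if d then (1 : ℤ) else -1 with he
      -- the entry used by the new machine
      have hent : idle δ z b d q (if Vis δ s (p + e - e) ∨ p + e = 0 then enc1 (τ (p + e - e)) else 0)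
          = encE (δ q (τ p)) := by
        have e1 : p + e - e = p := by ring
        rw [e1]
        by_cases hv : Vis δ s p ∨ p + e = 0
        · rw [if_pos hv]
          by_cases ha : τ p = 0
          · rw [ha, idle_enc_zero]
            split_ifs with h3
            · apply dummy_of_ne
              rcases Nat.lt_or_ge (s + 1) t with h4 | h4
              · have := hnn h4
                rw [ha] at this
                exact this
              · exfalso
                have h5 := (hb' (by omega)).mp h3.1
                rcases hv with hv | hv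
                · exact h5.1 hv
                · exact h5.2 hv
            · rfl
          · exact idle_enc_pos _ _ _ _ _ _ ha
        · rw [if_neg hv]
          push Not at hv
          have hq : q ≠ z := by
            intro h
            exact hv.1 (hz1' h)
          rw [idle_fresh _ _ _ _ _ hq, hbl p hv.1]
          by_cases hb1 : b = true
          · rw [if_pos hb1]
          · rw [if_neg hb1]
            apply dummy_of_ne
            rcases Nat.lt_or_ge (s + 1) t with h4 | h4
            · have := hnn h4
              rw [hbl p hv.1] at this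
              exact this
            · exfalso
              exact hb1 ((hb' (by omega)).mpr hv)
      rw [hent]
      refine Prod.ext rfl (Prod.ext ?_ ?_)
      · funext j
        simp only [Function.update_apply]
        by_cases hj : j = p + e
        · have e2 : j - e = p := by omega
          rw [if_pos hj, if_pos (Or.inl ((hvs' (j - e)).mpr (Or.inr e2))), if_pos e2]
          rfl
        · have e2 : ¬ (j - e = p) := by omega
          rw [if_neg hj, if_neg e2]
          by_cases h5 : Vis δ s (j - e) ∨ j = 0
          · rw [if_pos h5, if_pos]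
            rcases h5 with h5 | h5
            · exact Or.inl ((hvs' (j - e)).mpr (Or.inl h5))
            · exact Or.inr h5
          · rw [if_neg h5, if_neg]
            push Not at h5 ⊢
            refine ⟨?_, h5.2⟩
            intro h6
            rcases (hvs' (j - e)).mp h6 with h7 | h7
            · exact h5.1 h7
            · exact e2 h7
      · show p + e + (if (δ q (τ p)).2.1 = true then (1 : ℤ) else -1) =
          (p + if (δ q (τ p)).2.1 = true then (1 : ℤ) else -1) + e
        ring

/-- a state that never scans an unvisited cell gives one more step with one more symbol, and all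
visited cells nonblank at the end -/
lemma idle_main (δ : Table (n + 1) (m + 1)) (t : ℕ) (ht : HaltsAt δ t) (z : Fin (n + 1))
    (hz : ∀ s < t, ((step δ)^[s] (start n m)).1 = some z → Vis δ s (pos δ s)) (d : Bool) :
    ∃ δ' : Table (n + 1) (m + 1 + 1), haltEntries δ' = haltEntries δ ∧ HaltsAt δ' (t + 1) ∧
      nonblank δ' (t + 1) =
        ({i : ℤ | Vis δ t i} ∪ {-(if d then (1 : ℤ) else -1)}).ncard := by
  classical
  set b : Bool := decide (∃ s, t = s + 1 ∧ ¬ Vis δ s (pos δ s) ∧
    pos δ s + (if d then (1 : ℤ) else -1) ≠ 0) with hbdef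
  have hb : ∀ s, t = s + 1 →
      (b = true ↔ (¬ Vis δ s (pos δ s) ∧ pos δ s + (if d then (1 : ℤ) else -1) ≠ 0)) := by
    intro s hs
    rw [hbdef, decide_eq_true_iff]
    constructor
    · rintro ⟨s', hs', h⟩
      have : s' = s := by omega
      subst this
      exact h
    · intro h
      exact ⟨s, hs, h⟩
  have hrun := idle_run δ t z b d ht.2 hz hb
  have hst : start n (m + 1) =
      relabC (Equiv.swap 0 z) ((some z, fun _ => 0, 0) : Config (n + 1) (m + 1 + 1)) := by
    simp [start, relabC]
  refine ⟨relab (Equiv.swap 0 z) (idle δ z b d), ?_, ⟨?_, ?_⟩, ?_⟩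
  · rw [haltEntries_relab, haltEntries_idle]
  · rw [hst, iter_relab, hrun t le_rfl]
    simp only [relabC]
    rw [ht.1]
    rfl
  · intro s hs
    rw [hst, iter_relab]
    cases s with
    | zero => simp [relabC]
    | succ s =>
      rw [hrun s (by omega)]
      simp only [relabC, ne_eq, Option.map_eq_none_iff]
      exact ht.2 s (by omega)
  · unfold nonblank
    rw [hst, iter_relab, hrun t le_rfl]
    simp only [relabC]
    have himg : {i : ℤ | (if Vis δ t (i - (if d then (1 : ℤ) else -1)) ∨ i = 0 then
        enc1 (((step δ)^[t] (start n m)).2.1 (i - (if d then (1 : ℤ) else -1))) else 0) ≠ 0} =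
        (fun i => i + (if d then (1 : ℤ) else -1)) ''
          ({i : ℤ | Vis δ t i} ∪ {-(if d then (1 : ℤ) else -1)}) := by
      ext i
      simp only [Set.mem_setOf_eq, Set.mem_image, Set.mem_union, Set.mem_singleton_iff]
      constructor
      · intro h
        by_cases h1 : Vis δ t (i - (if d then (1 : ℤ) else -1)) ∨ i = 0
        · rcases h1 with h1 | h1
          · exact ⟨_, Or.inl h1, by ring⟩
          · exact ⟨_, Or.inr rfl, by rw [h1]; ring⟩
        · rw [if_neg h1] at h
          exact absurd rfl h
      · rintro ⟨i', h1 | h1, rfl⟩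
        · rw [if_pos]
          · exact enc1_ne_zero _
          · left
            have : i' + (if d then (1 : ℤ) else -1) - (if d then (1 : ℤ) else -1) = i' := by ring
            rw [this]
            exact h1
        · rw [if_pos]
          · exact enc1_ne_zero _
          · right
            rw [h1]
            ring
    rw [himg]
    apply Set.ncard_image_of_injective
    intro x y h
    simpa using h

/-- the visited cells form a finite set -/
lemma vis_finite (δ : Table (n + 1) (m + 1)) (t : ℕ) : {i : ℤ | Vis δ t i}.Finite := by
  have : {i : ℤ | Vis δ t i} = (fun u => pos δ u) '' (Set.Iio t) := by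
    ext i
    simp [Vis]
  rw [this]
  exact (Set.finite_Iio t).image _

lemma scanned_eq (δ : Table (n + 1) (m + 1)) (t : ℕ) :
    scanned δ t = {i : ℤ | Vis δ t i}.ncard := rfl

lemma nonblank_le_scanned (δ : Table (n + 1) (m + 1)) (t : ℕ) :
    nonblank δ t ≤ scanned δ t := by
  rw [scanned_eq]
  apply Set.ncard_le_ncard _ (vis_finite δ t)
  intro i hi
  by_contra h
  exact hi (blank_of_not_vis δ t i h)

/-- **One more symbol suffices for machines with a state that never scans an unvisited cell**,
unless all scanned cells are nonblank at the end and the start cell lies strictly inside. -/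
theorem oneSymbol (δ : Table (n + 1) (m + 1)) (t : ℕ) (ht : HaltsAt δ t)
    (z : Fin (n + 1))
    (hz : ∀ s < t, ((step δ)^[s] (start n m)).1 = some z → Vis δ s (pos δ s))
    (h : nonblank δ t < scanned δ t ∨ (∀ s < t, pos δ s ≤ 0) ∨ (∀ s < t, 0 ≤ pos δ s)) :
    ∃ δ' : Table (n + 1) (m + 1 + 1), haltEntries δ' = haltEntries δ ∧ HaltsAt δ' (t + 1) ∧
      nonblank δ t < nonblank δ' (t + 1) := by
  have hfin := vis_finite δ t
  have hle := nonblank_le_scanned δ t
  rw [scanned_eq] at hle h
  have key : ∀ d : Bool, (nonblank δ t < {i : ℤ | Vis δ t i}.ncard ∨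
      ¬ Vis δ t (-(if d then (1 : ℤ) else -1))) →
      ∃ δ' : Table (n + 1) (m + 1 + 1), haltEntries δ' = haltEntries δ ∧ HaltsAt δ' (t + 1) ∧
      nonblank δ t < nonblank δ' (t + 1) := by
    intro d hd
    obtain ⟨δ', h1, h2, h3⟩ := idle_main δ t ht z hz d
    refine ⟨δ', h1, h2, ?_⟩
    rw [h3]
    rcases hd with hd | hd
    · exact lt_of_lt_of_le hd (Set.ncard_le_ncard Set.subset_union_left
        (hfin.union (Set.finite_singleton _)))
    · have hd' : (-(if d then (1 : ℤ) else -1)) ∉ {i : ℤ | Vis δ t i} := hd
      rw [Set.union_singleton, Set.ncard_insert_of_notMem hd' hfin]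
      omega
  rcases h with h | h | h
  · exact key true (Or.inl h)
  · apply key false
    right
    rintro ⟨u, hu, h1⟩
    have := h u hu
    simp at h1
    omega
  · apply key true
    right
    rintro ⟨u, hu, h1⟩
    have := h u hu
    simp at h1
    omega

end

end Pool.Agent.H76.HB
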