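import Pool.Agent.H76.HB.Defs

/-!
Adding three symbols: the new machine `ext` simulates the old one. Inner blanks are written `sx`,
the visited region is enclosed by the markers `sL` and `sR`. When the head reaches the right marker
in state `s`, the machine writes `sx`, walks to the right over unvisited cells counting the state
up (modulo the number of states) until the state is `0`, drops the marker `sR` there and walks
back counting down, so that it is again in state `s` when it returns.
-/

set_option autoImplicit false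

namespace Pool.Agent.H76.HB

section

variable {n m j : ℕ}

/-- next state modulo the number of states -/
def nx (s : Fin (n + 2)) : Fin (n + 2) :=
  if h : s.val + 1 < n + 2 then ⟨s.val + 1, h⟩ else ⟨0, by omega⟩

/-- previous state modulo the number of states -/
def pv (s : Fin (n + 2)) : Fin (n + 2) :=
  if s.val = 0 then ⟨n + 1, by omega⟩ else ⟨s.val - 1, by omega⟩

lemma pv_nx (s : Fin (n + 2)) : pv (nx s) = s := by
  unfold nx
  split_ifs with h
  · unfold pv
    simp
  · unfold pv
    simp
    apply Fin.ext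
    simp
    have := s.isLt
    omega

lemma nx_pv (s : Fin (n + 2)) : nx (pv s) = s := by
  unfold pv
  split_ifs with h
  · unfold nx
    simp
    apply Fin.ext
    simp
    omega
  · unfold nx
    have := s.isLt
    split_ifs with h'
    · apply Fin.ext
      simp
      omega
    · simp at h'
      omega

/-- inner blank -/
def sx (m : ℕ) {j : ℕ} (hj : 3 ≤ j) : Fin (m + j + 1) := ⟨m + 1, by omega⟩
/-- right marker -/
def sR (m : ℕ) {j : ℕ} (hj : 3 ≤ j) : Fin (m + j + 1) := ⟨m + 2, by omega⟩
/-- left marker -/
def sL (m : ℕ) {j : ℕ} (hj : 3 ≤ j) : Fin (m + j + 1) := ⟨m + 3, by omega⟩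

/-- encoding of the old symbols -/
def enc (hj : 3 ≤ j) (a : Fin (m + 1)) : Fin (m + j + 1) :=
  if a.val = 0 then sx m hj else ⟨a.val, by omega⟩

/-- the new machine -/
def ext (hj : 3 ≤ j) (δ : Table (n + 2) (m + 1)) : Table (n + 2) (m + j + 1) := fun s b =>
  if b.val = 0 then
    (if s.val = 0 then (sR m hj, false, some (pv s)) else (sL m hj, true, some (nx s)))
  else if h : b.val ≤ m then (enc hj (δ s ⟨b.val, by omega⟩).1, (δ s ⟨b.val, by omega⟩).2)
  else if b.val = m + 1 then (enc hj (δ s 0).1, (δ s 0).2)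
  else if b.val = m + 2 then (sx m hj, true, some (nx s))
  else (sx m hj, false, some (pv s))

lemma enc_ne_zero (hj : 3 ≤ j) (a : Fin (m + 1)) : enc hj a ≠ 0 := by
  unfold enc
  split_ifs with h
  · intro h'
    have := congrArg Fin.val h'
    simp [sx] at this
  · intro h'
    have := congrArg Fin.val h'
    simp at this
    exact h (by simpa using this)

lemma enc_zero (hj : 3 ≤ j) : enc (m := m) hj 0 = sx m hj := by
  simp [enc]

lemma enc_inj (hj : 3 ≤ j) : Function.Injective (enc (m := m) hj) := by
  intro a b h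
  have h1 := congrArg Fin.val h
  have ha := a.isLt
  have hb := b.isLt
  apply Fin.ext
  unfold enc sx at h1
  split_ifs at h1 with h2 h3 h3
  · omega
  · simp at h1; omega
  · simp at h1; omega
  · simpa using h1

lemma ext_fresh_zero (hj : 3 ≤ j) (δ : Table (n + 2) (m + 1)) (s : Fin (n + 2)) (hs : s.val = 0) :
    ext hj δ s 0 = (sR m hj, false, some (pv s)) := by
  simp [ext, hs]

lemma ext_fresh_pos (hj : 3 ≤ j) (δ : Table (n + 2) (m + 1)) (s : Fin (n + 2)) (hs : s.val ≠ 0) :
    ext hj δ s 0 = (sL m hj, true, some (nx s)) := by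
  have : ¬ (s = 0) := fun h => hs (by simp [h])
  simp [ext, this]

lemma ext_R (hj : 3 ≤ j) (δ : Table (n + 2) (m + 1)) (s : Fin (n + 2)) :
    ext hj δ s (sR m hj) = (sx m hj, true, some (nx s)) := by
  simp [ext, sR]

lemma ext_L (hj : 3 ≤ j) (δ : Table (n + 2) (m + 1)) (s : Fin (n + 2)) :
    ext hj δ s (sL m hj) = (sx m hj, false, some (pv s)) := by
  simp [ext, sL]

lemma ext_enc (hj : 3 ≤ j) (δ : Table (n + 2) (m + 1)) (s : Fin (n + 2)) (a : Fin (m + 1)) :
    ext hj δ s (enc hj a) = (enc hj (δ s a).1, (δ s a).2) := by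
  by_cases ha : a.val = 0
  · have ha' : a = 0 := Fin.ext (by simpa using ha)
    subst ha'
    rw [enc_zero]
    simp [ext, sx]
  · have h1 : enc hj a = ⟨a.val, by omega⟩ := by simp [enc, ha]
    rw [h1]
    have h2 : a.val ≤ m := by omega
    simp only [ext]
    rw [if_neg ha, dif_pos h2]

/-- one step of the new machine, in explicit form -/
lemma step_some {n m : ℕ} (δ : Table n m) (q : Fin n) (τ : ℤ → Fin m) (p : ℤ) (w : Fin m) (d : Bool)
    (o : Option (Fin n)) (h : δ q (τ p) = (w, d, o)) :
    step δ (some q, τ, p) = (o, Function.update τ p w, p + (if d then (1 : ℤ) else -1)) := by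
  simp [step, h]

/-- the tape after walking to the right over `J + 1` fresh cells starting at `c` -/
def tapeR (hj : 3 ≤ j) (τ : ℤ → Fin (m + j + 1)) (c : ℤ) (J : ℕ) : ℤ → Fin (m + j + 1) :=
  fun i => if i < c then τ i else if i < c + J then sx m hj else if i = c + J then sR m hj else 0

/-- the tape after walking to the left over the fresh cells from `c` to `l` -/
def tapeL (hj : 3 ≤ j) (τ : ℤ → Fin (m + j + 1)) (c l : ℤ) : ℤ → Fin (m + j + 1) :=
  fun i => if c < i then τ i else if l < i then sx m hj else if i = l then sL m hj else 0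

/-- walking over fresh cells to the right and back -/
lemma goRight (hj : 3 ≤ j) (δ : Table (n + 2) (m + 1)) :
    ∀ (J : ℕ), J ≤ n + 1 → ∀ (v : Fin (n + 2)), (v.val + J = n + 2 ∨ (v.val = 0 ∧ J = 0)) →
    ∀ (τ : ℤ → Fin (m + j + 1)) (c : ℤ), (∀ i, c ≤ i → τ i = 0) →
    (step (ext hj δ))^[2 * J + 1] (some v, τ, c) =
      (some (pv v), tapeR hj τ c J, c - 1) := by
  intro J
  induction J with
  | zero =>
    intro _ v hv τ c hτ
    have hv0 : v.val = 0 := by
      have := v.isLt
      omega
    have h1 : ext hj δ v (τ c) = (sR m hj, false, some (pv v)) := by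
      rw [hτ c le_rfl]; exact ext_fresh_zero hj δ v hv0
    simp only [Nat.mul_zero, zero_add, Function.iterate_one]
    rw [step_some _ _ _ _ _ _ _ h1]
    refine Prod.ext rfl (Prod.ext ?_ ?_)
    · funext i
      simp only [Function.update_apply, tapeR]
      by_cases h1 : i = c
      · subst h1; simp
      · by_cases h2 : i < c
        · simp [h1, h2]
        · have : c ≤ i := by omega
          simp [h1, h2, hτ i this]
    · simp
      ring
  | succ J ih =>
    intro hJ v hv τ c hτ
    have hv0 : v.val ≠ 0 := by omega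
    have h1 : ext hj δ v (τ c) = (sL m hj, true, some (nx v)) := by
      rw [hτ c le_rfl]; exact ext_fresh_pos hj δ v hv0
    have e1 : 2 * (J + 1) + 1 = 1 + ((2 * J + 1) + 1) := by ring
    rw [e1, Nat.add_comm 1, Function.iterate_add_apply, Function.iterate_one,
      step_some _ _ _ _ _ _ _ h1, Nat.add_comm (2 * J + 1) 1, Function.iterate_add_apply,
      Function.iterate_one]
    have hnx : (nx v).val + J = n + 2 ∨ ((nx v).val = 0 ∧ J = 0) := by
      unfold nx
      split_ifs with h
      · left; simp; omega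
      · right; simp; omega
    have hfresh : ∀ i, c + 1 ≤ i → (Function.update τ c (sL m hj)) i = 0 := by
      intro i hi
      rw [Function.update_of_ne (by omega)]
      exact hτ i (by omega)
    have := ih (by omega) (nx v) hnx (Function.update τ c (sL m hj)) (c + 1) hfresh
    simp only [if_true] at *
    rw [this, pv_nx]
    have h2 : ext hj δ v (tapeR hj (Function.update τ c (sL m hj)) (c + 1) J (c + 1 - 1)) =
        (sx m hj, false, some (pv v)) := by
      have : c + 1 - 1 = c := by ring
      rw [this]
      simp only [tapeR, lt_add_iff_pos_right, zero_lt_one, if_true, Function.update_self]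
      exact ext_L hj δ v
    rw [step_some _ _ _ _ _ _ _ h2]
    refine Prod.ext rfl (Prod.ext ?_ ?_)
    · funext i
      simp only [Function.update_apply, tapeR]
      by_cases h1 : i = c
      · subst h1; simp
      · have h1' : ¬ (i = c + 1 - 1) := by omega
        by_cases h2 : i < c
        · have h3 : i < c + 1 := by omega
          simp [h1, h1', h2, h3]
        · have h3 : ¬ i < c + 1 := by omega
          have e : c + 1 + (J : ℤ) = c + ((J + 1 : ℕ) : ℤ) := by push_cast; ring
          simp only [h1', h2, h3, if_false, e]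
    · simp
      ring

/-- walking over fresh cells to the left and back -/
lemma goLeft (hj : 3 ≤ j) (δ : Table (n + 2) (m + 1)) (v : Fin (n + 2)) 
    (τ : ℤ → Fin (m + j + 1)) (c : ℤ) (hτ : ∀ i, i ≤ c → τ i = 0) :
    ∃ (k : ℕ) (l : ℤ), 1 ≤ k ∧ (v.val = 0 → k = 3 ∧ l = c - 1) ∧ l ≤ c ∧
    (step (ext hj δ))^[k] (some v, τ, c) =
      (some (nx v), tapeL hj τ c l, c + 1) := by
  by_cases hv : v.val = 0
  · have h1 : ext hj δ v (τ c) = (sR m hj, false, some (pv v)) := by
      rw [hτ c le_rfl]; exact ext_fresh_zero hj δ v hv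
    refine ⟨3, c - 1, by norm_num, fun _ => ⟨rfl, rfl⟩, by omega, ?_⟩
    have e3 : (3 : ℕ) = 1 + 1 + 1 := rfl
    rw [e3, Function.iterate_add_apply, Function.iterate_one, step_some _ _ _ _ _ _ _ h1,
      Function.iterate_add_apply, Function.iterate_one]
    have hpv : (pv v).val ≠ 0 := by
      unfold pv; simp [hv]
    simp only [Bool.false_eq_true, if_false]
    have h2 : ext hj δ (pv v) ((Function.update τ c (sR m hj)) (c + -1)) =
        (sL m hj, true, some (nx (pv v))) := by
      rw [Function.update_of_ne (by omega), hτ _ (by omega)]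
      exact ext_fresh_pos hj δ _ hpv
    rw [step_some _ _ _ _ _ _ _ h2]
    simp only [if_true]
    rw [nx_pv]
    have h3 : ext hj δ v ((Function.update (Function.update τ c (sR m hj)) (c + -1) (sL m hj))
        (c + -1 + 1)) = (sx m hj, true, some (nx v)) := by
      have : c + -1 + 1 = c := by ring
      rw [this, Function.update_of_ne (by omega), Function.update_self]
      exact ext_R hj δ v
    rw [step_some _ _ _ _ _ _ _ h3]
    simp only [if_true]
    refine Prod.ext rfl (Prod.ext ?_ ?_)
    · funext i
      simp only [Function.update_apply, tapeL]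
      by_cases h1 : i = c
      · subst h1; simp
      · have h1' : ¬ (i = c + -1 + 1) := by omega
        by_cases h2 : c < i
        · have h4 : ¬ (i = c + -1) := by omega
          simp [h1, h1', h2, h4]
        · by_cases h5 : i = c + -1
          · subst h5
            simp
            intro h; omega
          · have h6 : ¬ (c - 1 < i) := by omega
            have h7 : ¬ (i = c - 1) := by omega
            simp only [h1', h1, h5, h2, h6, h7, if_false]
            exact hτ i (by omega)
    · simp
  · have h1 : ext hj δ v (τ c) = (sL m hj, true, some (nx v)) := by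
      rw [hτ c le_rfl]; exact ext_fresh_pos hj δ v hv
    refine ⟨1, c, le_rfl, fun h => absurd h hv, le_rfl, ?_⟩
    rw [Function.iterate_one, step_some _ _ _ _ _ _ _ h1]
    refine Prod.ext rfl (Prod.ext ?_ ?_)
    · funext i
      simp only [Function.update_apply, tapeL]
      by_cases h1 : i = c
      · subst h1; simp
      · by_cases h2 : c < i
        · simp [h1, h2]
        · have : i ≤ c := by omega
          simp [h1, h2, hτ i this]
    · simp

/-- the simulation relation between the two tapes; `l` and `r` are the positions of the markers -/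
structure Sim (hj : 3 ≤ j) (τ : ℤ → Fin (m + 1)) (τ' : ℤ → Fin (m + j + 1)) (l r : ℤ) : Prop where
  hl : τ' l = sL m hj
  hr : τ' r = sR m hj
  mid : ∀ i, l < i → i < r → τ' i = enc hj (τ i)
  lo : ∀ i, i < l → τ' i = 0
  hi : ∀ i, r < i → τ' i = 0
  blo : ∀ i, i ≤ l → τ i = 0
  bhi : ∀ i, r ≤ i → τ i = 0

lemma exR (hj : 3 ≤ j) (δ : Table (n + 2) (m + 1)) (q : Fin (n + 2)) (τ : ℤ → Fin (m + 1))
    (τ' : ℤ → Fin (m + j + 1)) (l r : ℤ) (hlr : l < r) (h : Sim hj τ τ' l r) :
    ∃ (k : ℕ) (τ'' : ℤ → Fin (m + j + 1)) (r' : ℤ), r < r' ∧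
      (step (ext hj δ))^[k] (some q, τ', r) = (some q, τ'', r) ∧ Sim hj τ τ'' l r' := by
  have h1 : ext hj δ q (τ' r) = (sx m hj, true, some (nx q)) := by
    rw [h.hr]; exact ext_R hj δ q
  -- number of cells
  obtain ⟨J, hJ, hnx⟩ : ∃ J : ℕ, J ≤ n + 1 ∧ ((nx q).val + J = n + 2 ∨ ((nx q).val = 0 ∧ J = 0)) := by
    have hq := (nx q).isLt
    by_cases h0 : (nx q).val = 0
    · exact ⟨0, by omega, Or.inr ⟨h0, rfl⟩⟩
    · exact ⟨n + 2 - (nx q).val, by omega, Or.inl (by omega)⟩
  have hfresh : ∀ i, r + 1 ≤ i → (Function.update τ' r (sx m hj)) i = 0 := by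
    intro i hi
    rw [Function.update_of_ne (by omega)]
    exact h.hi i (by omega)
  have h2 := goRight hj δ J hJ (nx q) hnx (Function.update τ' r (sx m hj)) (r + 1) hfresh
  refine ⟨(2 * J + 1) + 1, tapeR hj (Function.update τ' r (sx m hj)) (r + 1) J, r + 1 + J,
    by omega, ?_, ?_⟩
  · rw [Function.iterate_add_apply, Function.iterate_one, step_some _ _ _ _ _ _ _ h1]
    simp only [if_true]
    rw [h2, pv_nx]
    refine Prod.ext rfl (Prod.ext rfl ?_)
    simp
  · unfold tapeR
    refine ⟨?_, ?_, ?_, ?_, ?_, h.blo, fun i hi => h.bhi i (by omega)⟩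
    · have : l < r + 1 := by omega
      simp only [this, if_true]
      rw [Function.update_of_ne (by omega)]
      exact h.hl
    · have e1 : ¬ (r + 1 + (J : ℤ) < r + 1) := by omega
      simp [e1]
    · intro i hi1 hi2
      by_cases e1 : i < r + 1
      · simp only [e1, if_true]
        by_cases e2 : i = r
        · subst e2
          rw [Function.update_self, h.bhi i le_rfl, enc_zero]
        · rw [Function.update_of_ne e2]
          exact h.mid i hi1 (by omega)
      · simp only [e1, if_false, hi2, if_true]
        rw [h.bhi i (by omega), enc_zero]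
    · intro i hi
      have : i < r + 1 := by omega
      simp only [this, if_true]
      rw [Function.update_of_ne (by omega)]
      exact h.lo i hi
    · intro i hi
      have e1 : ¬ i < r + 1 := by omega
      have e2 : ¬ i < r + 1 + (J : ℤ) := by omega
      have e3 : ¬ i = r + 1 + (J : ℤ) := by omega
      simp only [e1, e2, e3, if_false]

lemma exL (hj : 3 ≤ j) (δ : Table (n + 2) (m + 1)) (q : Fin (n + 2)) (τ : ℤ → Fin (m + 1))
    (τ' : ℤ → Fin (m + j + 1)) (l r : ℤ) (hlr : l < r) (h : Sim hj τ τ' l r) :
    ∃ (k : ℕ) (τ'' : ℤ → Fin (m + j + 1)) (l' : ℤ), l' < l ∧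
      (step (ext hj δ))^[k] (some q, τ', l) = (some q, τ'', l) ∧ Sim hj τ τ'' l' r := by
  have h1 : ext hj δ q (τ' l) = (sx m hj, false, some (pv q)) := by
    rw [h.hl]; exact ext_L hj δ q
  have hfresh : ∀ i, i ≤ l + -1 → (Function.update τ' l (sx m hj)) i = 0 := by
    intro i hi
    rw [Function.update_of_ne (by omega)]
    exact h.lo i (by omega)
  obtain ⟨k, l', hk, -, hl', h2⟩ := goLeft hj δ (pv q) (Function.update τ' l (sx m hj)) (l + -1) hfresh
  refine ⟨k + 1, tapeL hj (Function.update τ' l (sx m hj)) (l + -1) l', l', by omega, ?_, ?_⟩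
  · rw [Function.iterate_add_apply, Function.iterate_one, step_some _ _ _ _ _ _ _ h1]
    simp only [Bool.false_eq_true, if_false]
    rw [h2, nx_pv]
    refine Prod.ext rfl (Prod.ext rfl ?_)
    simp
  · unfold tapeL
    refine ⟨?_, ?_, ?_, ?_, ?_, fun i hi => h.blo i (by omega), h.bhi⟩
    · have e1 : ¬ (l + -1 < l') := by omega
      simp [e1]
    · have : l + -1 < r := by omega
      simp only [this, if_true]
      rw [Function.update_of_ne (by omega)]
      exact h.hr
    · intro i hi1 hi2
      by_cases e1 : l + -1 < i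
      · simp only [e1, if_true]
        by_cases e2 : i = l
        · subst e2
          rw [Function.update_self, h.blo i le_rfl, enc_zero]
        · rw [Function.update_of_ne e2]
          exact h.mid i (by omega) hi2
      · simp only [e1, if_false, hi1, if_true]
        rw [h.blo i (by omega), enc_zero]
    · intro i hi
      have e1 : ¬ (l + -1 < i) := by omega
      have e2 : ¬ l' < i := by omega
      have e3 : ¬ i = l' := by omega
      simp only [e1, e2, e3, if_false]
    · intro i hi
      have : l + -1 < i := by omega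
      simp only [this, if_true]
      rw [Function.update_of_ne (by omega)]
      exact h.hi i hi

lemma restore (hj : 3 ≤ j) (δ : Table (n + 2) (m + 1)) (q : Fin (n + 2)) (τ : ℤ → Fin (m + 1))
    (τ' : ℤ → Fin (m + j + 1)) (l r p : ℤ) (hlr : l < r) (hlp : l ≤ p) (hpr : p ≤ r)
    (h : Sim hj τ τ' l r) :
    ∃ (k : ℕ) (τ'' : ℤ → Fin (m + j + 1)) (l' r' : ℤ), l' ≤ l ∧ r ≤ r' ∧ l' < p ∧ p < r' ∧
      (step (ext hj δ))^[k] (some q, τ', p) = (some q, τ'', p) ∧ Sim hj τ τ'' l' r' := by
  rcases eq_or_lt_of_le hpr with h1 | h1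
  · subst h1
    obtain ⟨k, τ'', r', h2, h3, h4⟩ := exR hj δ q τ τ' l p hlr h
    exact ⟨k, τ'', l, r', le_rfl, by omega, hlr, h2, h3, h4⟩
  · rcases eq_or_lt_of_le hlp with h2 | h2
    · subst h2
      obtain ⟨k, τ'', l', h2, h3, h4⟩ := exL hj δ q τ τ' l r hlr h
      exact ⟨k, τ'', l', r, by omega, le_rfl, h2, hlr, h3, h4⟩
    · exact ⟨0, τ', l, r, le_rfl, le_rfl, h2, h1, rfl, h⟩

lemma simStep (hj : 3 ≤ j) (δ : Table (n + 2) (m + 1)) (q q1 : Fin (n + 2)) (w : Fin (m + 1))
    (d : Bool) (τ : ℤ → Fin (m + 1))
    (τ' : ℤ → Fin (m + j + 1)) (l r p : ℤ) (hlp : l < p) (hpr : p < r)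
    (h : Sim hj τ τ' l r) (hδ : δ q (τ p) = (w, d, some q1)) :
    ∃ (k : ℕ) (τ'' : ℤ → Fin (m + j + 1)) (l' r' : ℤ), 1 ≤ k ∧ l' ≤ l ∧ r ≤ r' ∧
      l' < p + (if d then (1 : ℤ) else -1) ∧ p + (if d then (1 : ℤ) else -1) < r' ∧
      (step (ext hj δ))^[k] (some q, τ', p) =
        (some q1, τ'', p + (if d then (1 : ℤ) else -1)) ∧
      Sim hj (Function.update τ p w) τ'' l' r' := by
  have h1 : ext hj δ q (τ' p) = (enc hj w, d, some q1) := by
    rw [h.mid p hlp hpr, ext_enc, hδ]
  have hS : Sim hj (Function.update τ p w) (Function.update τ' p (enc hj w)) l r := by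
    refine ⟨?_, ?_, ?_, ?_, ?_, ?_, ?_⟩
    · rw [Function.update_of_ne (by omega)]; exact h.hl
    · rw [Function.update_of_ne (by omega)]; exact h.hr
    · intro i hi1 hi2
      by_cases e : i = p
      · subst e; simp
      · rw [Function.update_of_ne e, Function.update_of_ne e]; exact h.mid i hi1 hi2
    · intro i hi
      rw [Function.update_of_ne (by omega)]; exact h.lo i hi
    · intro i hi
      rw [Function.update_of_ne (by omega)]; exact h.hi i hi
    · intro i hi
      rw [Function.update_of_ne (by omega)]; exact h.blo i hi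
    · intro i hi
      rw [Function.update_of_ne (by omega)]; exact h.bhi i hi
  have hd : (if d then (1 : ℤ) else -1) = 1 ∨ (if d then (1 : ℤ) else -1) = -1 := by
    cases d <;> simp
  obtain ⟨k, τ'', l', r', a1, a2, a3, a4, a5, a6⟩ := restore hj δ q1 _ _ l r
    (p + (if d then (1 : ℤ) else -1)) (by omega) (by rcases hd with e | e <;> rw [e] <;> omega)
    (by rcases hd with e | e <;> rw [e] <;> omega) hS
  refine ⟨k + 1, τ'', l', r', by omega, a1, a2, a3, a4, ?_, a6⟩
  rw [Function.iterate_add_apply, Function.iterate_one, step_some _ _ _ _ _ _ _ h1]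
  exact a5

lemma simStart (hj : 3 ≤ j) (δ : Table (n + 2) (m + 1)) :
    ∃ (τ' : ℤ → Fin (m + j + 1)) (l r : ℤ), l < 0 ∧ 0 < r ∧
      (step (ext hj δ))^[2 * n + 6] (start (n + 1) (m + j)) = (some 0, τ', 0) ∧
      Sim hj (fun _ => 0) τ' l r := by
  obtain ⟨k, l', hk, hk3, hl', h2⟩ := goLeft hj δ (0 : Fin (n + 2)) (fun _ => 0) 0 (fun _ _ => rfl)
  obtain ⟨hk3', hl3⟩ := hk3 rfl
  subst hk3'
  have hfresh : ∀ i : ℤ, (0 : ℤ) + 1 ≤ i → tapeL (m := m) hj (fun _ => 0) 0 l' i = 0 := by
    intro i hi
    have : 0 < i := by omega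
    simp [tapeL, this]
  have hnx : (nx (0 : Fin (n + 2))).val = 1 := by
    simp [nx]
  have h3 := goRight hj δ (n + 1) le_rfl (nx (0 : Fin (n + 2))) (Or.inl (by omega))
    (tapeL (m := m) hj (fun _ => 0) 0 l') (0 + 1) hfresh
  refine ⟨tapeR hj (tapeL (m := m) hj (fun _ => 0) 0 l') (0 + 1) (n + 1), l', 0 + 1 + ((n + 1 : ℕ) : ℤ),
    by omega, by omega, ?_, ?_⟩
  · have e : 2 * n + 6 = (2 * (n + 1) + 1) + 3 := by ring
    rw [e, Function.iterate_add_apply]
    have : (step (ext hj δ))^[3] (start (n + 1) (m + j)) =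
        (some (nx 0), tapeL (m := m) hj (fun _ => 0) 0 l', 0 + 1) := h2
    rw [this, h3, pv_nx]
    refine Prod.ext rfl (Prod.ext rfl ?_)
    simp
  · refine ⟨?_, ?_, ?_, ?_, ?_, fun _ _ => rfl, fun _ _ => rfl⟩
    · have e1 : l' < 0 + 1 := by omega
      have e2 : ¬ (0 < l') := by omega
      simp [tapeR, tapeL, e1, e2]
      intro h; omega
    · simp [tapeR]
      omega
    · intro i hi1 hi2
      rw [enc_zero]
      by_cases e1 : i < 0 + 1
      · have e2 : ¬ (0 < i) := by omega
        simp only [tapeR, tapeL, e1, e2, hi1, if_true, if_false]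
      · simp only [tapeR, e1, hi2, if_true, if_false]
    · intro i hi
      have e1 : i < 0 + 1 := by omega
      have e2 : ¬ (0 < i) := by omega
      have e3 : ¬ (l' < i) := by omega
      have e4 : ¬ (i = l') := by omega
      simp only [tapeR, tapeL, e1, e2, e3, e4, if_true, if_false]
    · intro i hi
      have e1 : ¬ (i < 0 + 1) := by omega
      have e2 : ¬ (i < 0 + 1 + ((n + 1 : ℕ) : ℤ)) := by omega
      have e3 : ¬ (i = 0 + 1 + ((n + 1 : ℕ) : ℤ)) := by omega
      simp only [tapeR, e1, e2, e3, if_false]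

/-- the simulation along the whole run -/
lemma simRun (hj : 3 ≤ j) (δ : Table (n + 2) (m + 1)) (s : ℕ) :
    ((step δ)^[s] (start (n + 1) m)).1 ≠ none →
    ∃ (q : Fin (n + 2)) (τ : ℤ → Fin (m + 1)) (p : ℤ) (k : ℕ) (τ' : ℤ → Fin (m + j + 1))
      (l r : ℤ), (step δ)^[s] (start (n + 1) m) = (some q, τ, p) ∧ s + (2 * n + 6) ≤ k ∧
      l < p ∧ p < r ∧ (step (ext hj δ))^[k] (start (n + 1) (m + j)) = (some q, τ', p) ∧
      Sim hj τ τ' l r ∧ ∀ u ≤ s, l < ((step δ)^[u] (start (n + 1) m)).2.2 ∧
        ((step δ)^[u] (start (n + 1) m)).2.2 < r := by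
  induction s with
  | zero =>
    intro _
    obtain ⟨τ', l, r, hl, hr, h1, h2⟩ := simStart hj δ
    refine ⟨0, fun _ => 0, 0, 2 * n + 6, τ', l, r, rfl, by omega, hl, hr, h1, h2, ?_⟩
    intro u hu
    have : u = 0 := by omega
    subst this
    exact ⟨hl, hr⟩
  | succ s ih =>
    intro hs
    rw [Function.iterate_succ_apply'] at hs
    have hs' : ((step δ)^[s] (start (n + 1) m)).1 ≠ none := by
      intro h
      apply hs
      generalize (step δ)^[s] (start (n + 1) m) = c at h
      unfold step
      rw [h]
      exact h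
    obtain ⟨q, τ, p, k, τ', l, r, h1, h2, h3, h4, h5, h6, h7⟩ := ih hs'
    rw [h1] at hs
    obtain ⟨w, d, o, hδ⟩ : ∃ w d o, δ q (τ p) = (w, d, o) := ⟨_, _, _, rfl⟩
    rw [step_some _ _ _ _ _ _ _ hδ] at hs
    obtain ⟨q1, hq1⟩ := Option.ne_none_iff_exists'.mp hs
    simp only at hq1
    subst hq1
    obtain ⟨k', τ'', l', r', a1, a2, a3, a4, a5, a6, a7⟩ :=
      simStep hj δ q q1 w d τ τ' l r p h3 h4 h6 hδ
    refine ⟨q1, Function.update τ p w, p + (if d then (1 : ℤ) else -1), k' + k, τ'', l', r',
      ?_, by omega, a4, a5, ?_, a7, ?_⟩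
    · rw [Function.iterate_succ_apply', h1, step_some _ _ _ _ _ _ _ hδ]
    · rw [Function.iterate_add_apply, h5, a6]
    · intro u hu
      rcases Nat.lt_or_ge s u with h | h
      · have : u = s + 1 := by omega
        subst this
        rw [Function.iterate_succ_apply', h1, step_some _ _ _ _ _ _ _ hδ]
        exact ⟨a4, a5⟩
      · have := h7 u h
        exact ⟨by omega, by omega⟩

lemma step_none {n m : ℕ} (δ : Table n m) (c : Config n m) (h : c.1 = none) :
    step δ c = c := by
  unfold step
  rw [h]

lemma iter_none {n m : ℕ} (δ : Table n m) (c : Config n m) (h : c.1 = none) (r : ℕ) :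
    (step δ)^[r] c = c := by
  induction r with
  | zero => rfl
  | succ r ih => rw [Function.iterate_succ_apply', ih, step_none δ c h]

/-- the number of halting entries does not change -/
lemma haltEntries_ext (hj : 3 ≤ j) (δ : Table (n + 2) (m + 1)) :
    haltEntries (ext hj δ) = haltEntries δ := by
  unfold haltEntries
  rw [← Finset.card_image_of_injective
    (Finset.univ.filter (fun p : Fin (n + 2) × Fin (m + 1) => (δ p.1 p.2).2.2 = none))
    (f := fun p : Fin (n + 2) × Fin (m + 1) => (p.1, enc hj p.2))]
  · congr 1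
    ext ⟨s, b⟩
    simp only [Finset.mem_filter, Finset.mem_univ, true_and, Finset.mem_image, Prod.exists,
      Prod.mk.injEq]
    constructor
    · intro h
      by_cases h0 : b.val = 0
      · exfalso
        have hb : b = 0 := Fin.ext (by simpa using h0)
        subst hb
        by_cases hs : s.val = 0
        · rw [ext_fresh_zero hj δ s hs] at h
          simp at h
        · rw [ext_fresh_pos hj δ s hs] at h
          simp at h
      · by_cases h1 : b.val ≤ m
        · have hb : enc hj (⟨b.val, by omega⟩ : Fin (m + 1)) = b := by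
            simp [enc, h0]
          refine ⟨s, ⟨b.val, by omega⟩, ?_, rfl, hb⟩
          rw [← hb, ext_enc] at h
          exact h
        · by_cases h2 : b.val = m + 1
          · have hb : enc hj (0 : Fin (m + 1)) = b := by
              rw [enc_zero]
              exact Fin.ext (by simp [sx, h2])
            refine ⟨s, 0, ?_, rfl, hb⟩
            rw [← hb, ext_enc] at h
            exact h
          · exfalso
            by_cases h3 : b.val = m + 2
            · have hb : b = sR m hj := Fin.ext (by simp [sR, h3])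
              subst hb
              rw [ext_R] at h
              simp at h
            · simp only [ext, h0, h1, h2, h3, if_false, dite_false] at h
              simp at h
    · rintro ⟨s', a, h1, rfl, rfl⟩
      rw [ext_enc]
      exact h1
  · intro p q h
    simp only [Prod.mk.injEq] at h
    exact Prod.ext h.1 (enc_inj hj h.2)

end

/-- **Adding three symbols always suffices.** -/
theorem addThree (n m j k : ℕ) (hj : 3 ≤ j) (δ : Table (n + 2) (m + 1)) (hk : haltEntries δ = k)
    (t : ℕ) (ht : HaltsAt δ t) :
    ∃ (δ' : Table (n + 2) (m + j + 1)) (t' : ℕ), haltEntries δ' = k ∧ HaltsAt δ' t' ∧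
      t + 2 * (n + 2) + 2 ≤ t' ∧ scanned δ t + 2 ≤ nonblank δ' t' ∧
      nonblank δ t + 2 ≤ nonblank δ' t' := by
  obtain ⟨ht1, ht2⟩ := ht
  -- `t` is positive
  obtain ⟨s, rfl⟩ : ∃ s, t = s + 1 := by
    cases t with
    | zero => exact absurd ht1 (by simp [start])
    | succ s => exact ⟨s, rfl⟩
  obtain ⟨q, τ, p, k0, τ', l, r, h1, h2, h3, h4, h5, h6, h7⟩ := simRun hj δ s (ht2 s (by omega))
  obtain ⟨w, d, o, hδ⟩ : ∃ w d o, δ q (τ p) = (w, d, o) := ⟨_, _, _, rfl⟩
  have hfin : (step δ)^[s + 1] (start (n + 1) m) =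
      (o, Function.update τ p w, p + (if d then (1 : ℤ) else -1)) := by
    rw [Function.iterate_succ_apply', h1, step_some _ _ _ _ _ _ _ hδ]
  have ho : o = none := by
    rw [hfin] at ht1
    exact ht1
  subst ho
  have hδ' : ext hj δ q (τ' p) = (enc hj w, d, none) := by
    rw [h6.mid p h3 h4, ext_enc, hδ]
  have hfin' : (step (ext hj δ))^[k0 + 1] (start (n + 1) (m + j)) =
      (none, Function.update τ' p (enc hj w), p + (if d then (1 : ℤ) else -1)) := by
    rw [Function.iterate_succ_apply', h5, step_some _ _ _ _ _ _ _ hδ']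
  have hlr : l < r := by omega
  -- nonblank cells of the new machine
  have hN' : (r - l + 1).toNat ≤ nonblank (ext hj δ) (k0 + 1) := by
    unfold nonblank
    rw [hfin']
    have hfinite : {i : ℤ | Function.update τ' p (enc hj w) i ≠ 0}.Finite := by
      apply Set.Finite.subset (Set.finite_Icc l r)
      intro i hi
      by_contra hcon
      apply hi
      have hi' : i < l ∨ r < i := by
        simp only [Set.mem_Icc, not_and_or, not_le] at hcon
        exact hcon
      rw [Function.update_of_ne (by omega)]
      rcases hi' with h | h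
      · exact h6.lo i h
      · exact h6.hi i h
    calc (r - l + 1).toNat = (Set.Icc l r).ncard := by
          rw [← Nat.card_coe_set_eq, Nat.card_eq_fintype_card, Fintype.card_ofFinset, Int.card_Icc]
          congr 1
          ring
      _ ≤ _ := by
          apply Set.ncard_le_ncard _ hfinite
          intro i hi
          simp only [Set.mem_setOf_eq]
          by_cases e : i = p
          · subst e
            rw [Function.update_self]
            exact enc_ne_zero hj w
          · rw [Function.update_of_ne e]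
            rcases eq_or_lt_of_le hi.1 with e1 | e1
            · rw [← e1, h6.hl]
              intro h
              have := congrArg Fin.val h
              simp [sL] at this
            · rcases eq_or_lt_of_le hi.2 with e2 | e2
              · rw [e2, h6.hr]
                intro h
                have := congrArg Fin.val h
                simp [sR] at this
              · rw [h6.mid i e1 e2]
                exact enc_ne_zero hj _
  have hIoo : (Set.Ioo l r).ncard = (r - l - 1).toNat := by
    rw [← Nat.card_coe_set_eq, Nat.card_eq_fintype_card, Fintype.card_ofFinset, Int.card_Ioo]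
  have hV : scanned δ (s + 1) ≤ (r - l - 1).toNat := by
    rw [← hIoo]
    unfold scanned
    apply Set.ncard_le_ncard _ (Set.finite_Ioo l r)
    rintro i ⟨u, hu, rfl⟩
    exact h7 u (by omega)
  have hN : nonblank δ (s + 1) ≤ (r - l - 1).toNat := by
    rw [← hIoo]
    unfold nonblank
    apply Set.ncard_le_ncard _ (Set.finite_Ioo l r)
    intro i hi
    simp only [Set.mem_setOf_eq] at hi
    rw [hfin] at hi
    simp only at hi
    by_cases e : i = p
    · subst e; exact ⟨h3, h4⟩
    · rw [Function.update_of_ne e] at hi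
      constructor
      · by_contra h
        exact hi (h6.blo i (by omega))
      · by_contra h
        exact hi (h6.bhi i (by omega))
  refine ⟨ext hj δ, k0 + 1, ?_, ⟨?_, ?_⟩, by omega, by omega, by omega⟩
  · rw [haltEntries_ext, hk]
  · rw [hfin']
  · intro u hu h
    have : (step (ext hj δ))^[k0] (start (n + 1) (m + j)) =
        (step (ext hj δ))^[u] (start (n + 1) (m + j)) := by
      obtain ⟨v, rfl⟩ : ∃ v, k0 = v + u := ⟨k0 - u, by omega⟩
      rw [Function.iterate_add_apply, iter_none _ _ h]
    rw [h5] at this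
    rw [← this] at h
    simp at h

end Pool.Agent.H76.HB
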